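import Pool.Agent.H56.KAF.Stmts

/-!
# Counting values of large probability
-/

set_option autoImplicit false

namespace Pool.KAF

open Finset Real
open Pool.Agent.H49.Ent Pool.Agent.H32.Dense Pool.STK

theorem cnv_thm : CNVStmt := by
  classical
  intro Ω S T _ p A Z E h hp hE hAE
  have hp0 := hp.nonneg
  have hr0 : ∀ ω, 0 ≤ rs p E ω := fun ω => cond_nonneg hp0 _ _ ω
  have hr1 : ∑ ω, rs p E ω = 1 := sum_cond p _ hE.ne'
  have hsupp : ∀ ω, 0 < rs p E ω → 0 < p ω ∧ ω ∈ E := by
    intro ω hω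
    have := (cond_pos_iff hp0 (fun ω => ω ∈ E) True ω).mp hω
    exact ⟨this.1, this.2.symm ▸ trivial⟩
  set F : T → Finset S := fun z => (univ.image A).filter fun a =>
    Real.exp (-h) * law p Z z ≤ law p (fun v => (A v, Z v)) (a, z) with hF
  have hmem : ∀ ω, 0 < rs p E ω → A ω ∈ F (Z ω) := by
    intro ω hω
    obtain ⟨h1, h2⟩ := hsupp ω hω
    rw [hF]
    exact Finset.mem_filter.mpr ⟨Finset.mem_image_of_mem A (Finset.mem_univ ω), hAE ω h2 h1⟩
  refine (CH_le_card hr0 hr1 A Z F hmem).trans ?_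
  have hle : ∀ ω, 0 < rs p E ω → Real.log ((F (Z ω)).card) ≤ h := by
    intro ω hω
    obtain ⟨h1, h2⟩ := hsupp ω hω
    have hz : 0 < law p Z (Z ω) := law_pos hp0 Z h1
    have hc : (0 : ℝ) < (F (Z ω)).card := by
      exact_mod_cast Finset.card_pos.mpr ⟨_, hmem ω hω⟩
    have hsum : ∑ a ∈ F (Z ω), law p (fun v => (A v, Z v)) (a, Z ω) ≤ law p Z (Z ω) := by
      have e : ∀ a, law p (fun v => (A v, Z v)) (a, Z ω) =
          ∑ v, if Z v = Z ω then (if A v = a then p v else 0) else 0 := by
        intro a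
        unfold law
        refine Finset.sum_congr rfl fun v _ => ?_
        simp only [Prod.mk.injEq]
        by_cases h3 : A v = a <;> by_cases h4 : Z v = Z ω <;> simp [h3, h4]
      simp_rw [e]
      rw [Finset.sum_comm]
      unfold law
      refine Finset.sum_le_sum fun v _ => ?_
      by_cases h4 : Z v = Z ω
      · simp only [h4, if_true]
        rw [Finset.sum_ite_eq]
        split_ifs
        · exact le_rfl
        · exact hp0 v
      · simp [h4]
    have hlow : ((F (Z ω)).card : ℝ) * (Real.exp (-h) * law p Z (Z ω)) ≤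
        ∑ a ∈ F (Z ω), law p (fun v => (A v, Z v)) (a, Z ω) := by
      rw [← nsmul_eq_mul]
      exact Finset.card_nsmul_le_sum _ _ _ fun a ha => (Finset.mem_filter.mp ha).2
    have hcard : ((F (Z ω)).card : ℝ) ≤ Real.exp h := by
      have h5 : ((F (Z ω)).card : ℝ) * Real.exp (-h) ≤ 1 := by
        have h6 : ((F (Z ω)).card : ℝ) * Real.exp (-h) * law p Z (Z ω) ≤ 1 * law p Z (Z ω) := by
          rw [one_mul, mul_assoc]
          exact hlow.trans hsum
        exact le_of_mul_le_mul_right h6 hz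
      rw [Real.exp_neg, ← div_eq_mul_inv, div_le_one (Real.exp_pos h)] at h5
      exact h5
    calc Real.log ((F (Z ω)).card) ≤ Real.log (Real.exp h) := Real.log_le_log hc hcard
      _ = h := Real.log_exp h
  calc Ex (rs p E) (fun ω => Real.log ((F (Z ω)).card)) ≤ Ex (rs p E) (fun _ => h) :=
        Ex_mono hr0 hle
    _ = h := Ex_const hr1 h

end Pool.KAF
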