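import Pool.Agent.H56.KAF.Stmts

/-!
# The inequality for families with bounded densities
-/

set_option autoImplicit false

namespace Pool.KAF

open Finset Real
open Pool.Agent.H49.Ent Pool.Agent.H32.Dense Pool.STK

/-- The constant of the inequality for one type. -/
noncomputable def oneC (m : ℕ) : ℝ :=
  cc m + Real.log (4 * Cm m) + (7 * (2 * m + 1) + 2) * Real.log 2

lemma cc_nonneg' (m : ℕ) : 0 ≤ cc m := by
  unfold cc
  have := Real.log_nonneg (by norm_num : (1 : ℝ) ≤ 100)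
  positivity

lemma one_le_Cm (m : ℕ) : 1 ≤ Cm m := by
  unfold Cm
  exact one_le_pow₀ (by norm_num)

lemma log4Cm_nonneg (m : ℕ) : 0 ≤ Real.log (4 * Cm m) :=
  Real.log_nonneg (by linarith [one_le_Cm m])

lemma oneC_nonneg (m : ℕ) : 0 ≤ oneC m := by
  have h1 := cc_nonneg' m
  have h2 := log4Cm_nonneg m
  have h3 : 0 ≤ Real.log 2 := Real.log_nonneg (by norm_num)
  unfold oneC
  positivity

lemma log4Cm_le (m : ℕ) : Real.log (4 * Cm m) ≤ oneC m := by
  have h1 := cc_nonneg' m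
  have h3 : 0 ≤ Real.log 2 := Real.log_nonneg (by norm_num)
  have h4 : 0 ≤ (7 * (2 * (m : ℝ) + 1) + 2) * Real.log 2 := by positivity
  unfold oneC
  linarith

lemma two_pow_inv_exp (n : ℕ) : (1 : ℝ) / 2 ^ n = Real.exp (-(n * Real.log 2)) := by
  rw [Real.exp_neg, ← Real.log_pow, Real.exp_log (by positivity), one_div]

/-- The bound for the mean probability of a position. -/
lemma one_mean {m w J : ℕ} {N : ℝ} {hD hw ht e₁ e₂ : ℝ} (hwJ : w ≤ J)
    (hN : Real.exp (m * J * Real.log 2 - hD) ≤ N)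
    (h1 : e₁ ≤ Cm m * (Real.exp (-hD) / N + 1 / 2 ^ (m * J)))
    (h2 : e₂ ≤ Cm m * (Real.exp (-hw) / N + Real.exp (-ht) / 2 ^ (m * w)) +
      Real.exp (-ht) * e₁) :
    e₁ ≤ 2 * Cm m / 2 ^ (m * J) ∧
    e₂ ≤ 4 * Cm m * Real.exp (-min (hw + (m * J * Real.log 2 - hD))
      (ht + m * w * Real.log 2)) := by
  have hC : 0 < Cm m := lt_of_lt_of_le one_pos (one_le_Cm m)
  have hL : 0 < Real.exp (m * J * Real.log 2 - hD) := Real.exp_pos _
  have hN0 : 0 < N := lt_of_lt_of_le hL hN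
  have hNinv : N⁻¹ ≤ Real.exp (-(m * J * Real.log 2 - hD)) := by
    rw [Real.exp_neg]
    exact inv_anti₀ hL hN
  have a1 : Real.exp (-hD) / N ≤ 1 / 2 ^ (m * J) := by
    rw [two_pow_inv_exp, div_eq_mul_inv]
    calc Real.exp (-hD) * N⁻¹ ≤ Real.exp (-hD) * Real.exp (-(m * J * Real.log 2 - hD)) :=
          mul_le_mul_of_nonneg_left hNinv (Real.exp_pos _).le
      _ = Real.exp (-(((m * J : ℕ) : ℝ) * Real.log 2)) := by
          rw [← Real.exp_add]
          congr 1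
          push_cast
          ring
  have b1 : e₁ ≤ 2 * Cm m / 2 ^ (m * J) := by
    refine h1.trans ?_
    calc Cm m * (Real.exp (-hD) / N + 1 / 2 ^ (m * J)) ≤
          Cm m * (1 / 2 ^ (m * J) + 1 / 2 ^ (m * J)) := by
          apply mul_le_mul_of_nonneg_left _ hC.le
          linarith
      _ = 2 * Cm m / 2 ^ (m * J) := by ring
  refine ⟨b1, ?_⟩
  set a : ℝ := hw + (m * J * Real.log 2 - hD) with ha
  set b : ℝ := ht + m * w * Real.log 2 with hb
  have c1 : Real.exp (-hw) / N ≤ Real.exp (-a) := by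
    rw [div_eq_mul_inv]
    calc Real.exp (-hw) * N⁻¹ ≤ Real.exp (-hw) * Real.exp (-(m * J * Real.log 2 - hD)) :=
          mul_le_mul_of_nonneg_left hNinv (Real.exp_pos _).le
      _ = Real.exp (-a) := by
          rw [← Real.exp_add]
          congr 1
          rw [ha]
          ring
  have c2 : Real.exp (-ht) / 2 ^ (m * w) = Real.exp (-b) := by
    rw [div_eq_mul_one_div, two_pow_inv_exp, ← Real.exp_add]
    congr 1
    rw [hb]
    push_cast
    ring
  have c3 : Real.exp (-ht) * e₁ ≤ 2 * Cm m * Real.exp (-b) := by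
    have c4 : (1 : ℝ) / 2 ^ (m * J) ≤ 1 / 2 ^ (m * w) := by
      apply one_div_le_one_div_of_le (by positivity)
      exact pow_le_pow_right₀ (by norm_num) (Nat.mul_le_mul_left m hwJ)
    calc Real.exp (-ht) * e₁ ≤ Real.exp (-ht) * (2 * Cm m / 2 ^ (m * J)) :=
          mul_le_mul_of_nonneg_left b1 (Real.exp_pos _).le
      _ = 2 * Cm m * (Real.exp (-ht) * (1 / 2 ^ (m * J))) := by ring
      _ ≤ 2 * Cm m * (Real.exp (-ht) * (1 / 2 ^ (m * w))) := by
          apply mul_le_mul_of_nonneg_left _ (by positivity)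
          exact mul_le_mul_of_nonneg_left c4 (Real.exp_pos _).le
      _ = 2 * Cm m * Real.exp (-b) := by
          rw [← c2]
          ring
  have c5 : Real.exp (-a) ≤ Real.exp (-min a b) := by
    apply Real.exp_le_exp.mpr
    linarith [min_le_left a b]
  have c6 : Real.exp (-b) ≤ Real.exp (-min a b) := by
    apply Real.exp_le_exp.mpr
    linarith [min_le_right a b]
  calc e₂ ≤ Cm m * (Real.exp (-hw) / N + Real.exp (-ht) / 2 ^ (m * w)) +
        Real.exp (-ht) * e₁ := h2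
    _ ≤ Cm m * (Real.exp (-a) + Real.exp (-b)) + 2 * Cm m * Real.exp (-b) := by
        rw [c2]
        have := mul_le_mul_of_nonneg_left (add_le_add_left c1 (Real.exp (-b))) hC.le
        linarith
    _ ≤ Cm m * (Real.exp (-min a b) + Real.exp (-min a b)) +
        2 * Cm m * Real.exp (-min a b) := by
        have d1 := mul_le_mul_of_nonneg_left (add_le_add c5 c6) hC.le
        have d2 := mul_le_mul_of_nonneg_left c6 (by positivity : 0 ≤ 2 * Cm m)
        linarith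
    _ = 4 * Cm m * Real.exp (-min a b) := by ring

/-- Decomposition of the entropy of the position. -/
lemma one_split {m J : ℕ} {Ω ζ : Type} [Fintype Ω] {q : Ω → ℝ} (hq : ∀ ω, 0 ≤ q ω)
    (u d : Ω → Fin m → ℝ) (t : Ω → ℕ) (Z : Ω → ζ) (w : ℕ)
    (hf : ∃ f : (Fin m → ℤ) → Fin m → ℤ, ∀ ω, X J u d t w ω = f (X J u d t J ω)) :
    CH q (fun ω => (X J u d t J ω, t ω)) Z = CH q (fun ω => (X J u d t w ω, t ω)) Z +
      CH q (X J u d t J) (fun ω => (X J u d t w ω, (t ω, Z ω))) := by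
  obtain ⟨f, hf⟩ := hf
  have h := CH_chain hq (X J u d t J) (fun ω => (X J u d t w ω, t ω)) Z
  have h1 : CH q (fun ω => (X J u d t J ω, t ω)) Z =
      CH q (fun ω => (X J u d t J ω, (X J u d t w ω, t ω))) Z := by
    refine CH_congr hq ?_ ?_ (fun _ _ _ _ h => h) (fun _ _ _ _ h => h)
    · intro ω ω' _ _ hh
      simp only [Prod.mk.injEq] at hh ⊢
      refine ⟨hh.1.1, ?_, hh.1.2⟩
      rw [hf, hf, hh.1.1]
    · intro ω ω' _ _ hh
      simp only [Prod.mk.injEq] at hh ⊢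
      exact ⟨hh.1.1, hh.1.2.2⟩
  have h2 : CH q (X J u d t J) (fun ω => ((X J u d t w ω, t ω), Z ω)) =
      CH q (X J u d t J) (fun ω => (X J u d t w ω, (t ω, Z ω))) := by
    refine CH_congr hq (fun _ _ _ _ h => (Prod.ext_iff.mp h).1)
      (fun _ _ _ _ h => (Prod.ext_iff.mp h).1) ?_ ?_
    · intro ω ω' _ _ hh
      simp only [Prod.mk.injEq] at hh ⊢
      exact ⟨hh.1.1, hh.1.2, hh.2⟩
    · intro ω ω' _ _ hh
      simp only [Prod.mk.injEq] at hh ⊢
      exact ⟨⟨hh.1, hh.2.1⟩, hh.2.2⟩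
  rw [h1, h, h2]

/-- Dividing by a probability close to one. -/
lemma one_div_pr {J m : ℕ} (hJ : 16 ≤ J) {P x y : ℝ} (hx : 0 ≤ x) (hP : 1 - 3 / (J : ℝ) ≤ P)
    (hxy : x * P ≤ y) (hy : y ≤ ((m * (J + 1) + J : ℕ) : ℝ) * Real.log 2) :
    x ≤ y + 4 * (2 * m + 1) * Real.log 2 := by
  have hJr : (16 : ℝ) ≤ J := by exact_mod_cast hJ
  have hJ0 : (0 : ℝ) < J := by linarith
  have hl : 0 ≤ Real.log 2 := Real.log_nonneg (by norm_num)
  have h3 : 3 / (J : ℝ) ≤ 3 / 16 := by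
    apply div_le_div_of_nonneg_left (by norm_num) (by norm_num) hJr
  have h4 : x * (13 / 16) ≤ y := by
    refine le_trans ?_ hxy
    exact mul_le_mul_of_nonneg_left (by linarith) hx
  have h5 : x * (1 - P) ≤ x * (3 / J) := mul_le_mul_of_nonneg_left (by linarith) hx
  have h6 : x * (3 / J) ≤ 4 * (2 * m + 1) * Real.log 2 := by
    rw [mul_div_assoc', div_le_iff₀ hJ0]
    have h7 : ((m * (J + 1) + J : ℕ) : ℝ) ≤ (2 * m + 1) * J := by
      push_cast
      have : (m : ℝ) * (J + 1) ≤ m * (2 * J) :=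
        mul_le_mul_of_nonneg_left (by linarith) (Nat.cast_nonneg m)
      linarith
    have h8 : y ≤ (2 * m + 1) * J * Real.log 2 := hy.trans (mul_le_mul_of_nonneg_right h7 hl)
    nlinarith [h8, h4]
  nlinarith [h5, h6, hxy]

/-- The final estimate. -/
lemma one_final {m w J : ℕ} {μ σ hD hw ht hJ cJ cw dJ dw gJ L : ℝ}
    (h0 : μ * ((J : ℝ) - w) ≤ cJ - cw + σ * J)
    (h1 : cJ ≤ dJ + 4 * (2 * m + 1) * Real.log 2)
    (h2 : dw ≤ cw + Real.log 2 + 3 * (2 * m + 1) * Real.log 2)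
    (h3 : dJ ≤ gJ) (h4 : gJ ≤ L + hJ + cc m)
    (h5 : L ≤ m * J * Real.log 2 - hD + Real.log 2)
    (h6 : min (hw + (m * J * Real.log 2 - hD)) (ht + m * w * Real.log 2) -
      Real.log (4 * Cm m) ≤ dw) :
    μ * ((J : ℝ) - w) ≤ hJ - hw +
      max 0 (m * ((J : ℝ) - w) * Real.log 2 + hw - J * Real.log 2 - hD) +
      max 0 (J * Real.log 2 - ht) + σ * J + oneC m := by
  have m1 := le_max_left 0 (m * ((J : ℝ) - w) * Real.log 2 + hw - J * Real.log 2 - hD)
  have m2 := le_max_right 0 (m * ((J : ℝ) - w) * Real.log 2 + hw - J * Real.log 2 - hD)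
  have m3 := le_max_left 0 (J * Real.log 2 - ht)
  have m4 := le_max_right 0 (J * Real.log 2 - ht)
  have hC : oneC m = cc m + Real.log (4 * Cm m) + (7 * (2 * m + 1) + 2) * Real.log 2 := rfl
  rcases le_total (hw + (m * J * Real.log 2 - hD)) (ht + m * w * Real.log 2) with h | h
  · rw [min_eq_left h] at h6
    rw [hC]
    linarith
  · rw [min_eq_right h] at h6
    rw [hC]
    linarith

/-- The inequality for positive laws. -/
lemma one_core (cov : COVStmt) (sec : SECStmt) (fin : FINStmt) (rst : RSTStmt) (jen : JENStmt)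
    (val : VALStmt) (m : ℕ) (μ σ θ : ℝ) (J : ℕ) (hJ16 : 16 ≤ J) (hgood : Good m μ σ θ J)
    (Ω ζ : Type) [Fintype Ω] (p : Ω → ℝ) (u d : Ω → Fin m → ℝ) (t : Ω → ℕ) (Z : Ω → ζ)
    (hfam : Fam J p u d t) (hpos : ∀ ω, 0 < p ω) (w : ℕ) (hwJ : w ≤ J) (hD hw ht hJ : ℝ)
    (hsD : Sup p (Fl d J) Z (Real.exp (-hD)))
    (hsw : Sup p (fun ω => (X J u d t w ω, t ω)) Z (Real.exp (-hw)))
    (hst : Sup p t (fun ω => (li u d ω, Z ω)) (Real.exp (-ht)))
    (hCH : CH p (fun ω => (X J u d t J ω, t ω)) Z ≤ hJ) (hDm : hD ≤ m * J * Real.log 2)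
    (hθ : J * Real.log 2 - ht + oneC m + Real.log J ≤ θ * J) :
    μ * ((J : ℝ) - w) ≤ hJ - hw +
      max 0 (m * ((J : ℝ) - w) * Real.log 2 + hw - J * Real.log 2 - hD) +
      max 0 (J * Real.log 2 - ht) + σ * J + oneC m := by
  have hJr : (16 : ℝ) ≤ J := by exact_mod_cast hJ16
  have hJ0 : (0 : ℝ) < J := by linarith
  have hl2 : 0 ≤ Real.log 2 := Real.log_nonneg (by norm_num)
  have hC : 0 < Cm m := lt_of_lt_of_le one_pos (one_le_Cm m)
  have hLD : 0 ≤ m * J * Real.log 2 - hD := by linarith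
  set L : ℝ := Real.exp (m * J * Real.log 2 - hD) with hL
  have hL1 : 1 ≤ L := Real.one_le_exp hLD
  set N : ℕ := ⌈L⌉₊ with hN
  have hN1 : 1 ≤ N := Nat.one_le_ceil_iff.mpr (by linarith)
  have hNge : L ≤ N := Nat.le_ceil _
  have hNle : (N : ℝ) ≤ 2 * L := by
    have := Nat.ceil_lt_add_one (a := L) (by linarith)
    linarith
  obtain ⟨Ω1, ζ1, i1, p1, u1, d1, t1, Z1, fam1, pos1, sup1, e1D, e1w, ch1⟩ :=
    cov m J N Ω ζ p u d t Z hfam hpos hN1 w hwJ _ _ _ (Real.exp_pos (-hD)).le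
      (Real.exp_pos (-hw)).le (Real.exp_pos (-ht)).le hsD hsw hst
  obtain ⟨Ω2, ζ2, i2, p2, u2, d2, t2, Z2, fam2, det2, sup2, e2D, e2w, ch2⟩ :=
    sec m J Ω1 ζ1 p1 u1 d1 t1 Z1 fam1 pos1 w _ (Real.exp_pos (-ht)).le sup1
  have hmean := one_mean (m := m) (w := w) (J := J) (N := N) (hD := hD) (hw := hw) (ht := ht)
    hwJ hNge e1D (e2w.trans (add_le_add_left e1w _))
  obtain ⟨hm1, hm2⟩ := hmean
  have hκ : 0 < 2 * Cm m / 2 ^ (m * J) := by positivity
  obtain ⟨E, hE, hfull⟩ := fin m J Ω2 ζ2 p2 u2 d2 t2 Z2 fam2 det2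
    (2 * Cm m / 2 ^ (m * J)) (Real.exp (-ht)) J θ hκ (Real.exp_pos _).le (by linarith)
    (e2D.trans hm1) sup2 (by
      have e : 2 * (J : ℝ) * (2 * Cm m / 2 ^ (m * J)) * Real.exp (-ht) * 2 ^ ((m + 1) * J) =
          4 * Cm m * J * (2 ^ J * Real.exp (-ht)) := by
        rw [add_mul, one_mul, pow_add]
        field_simp
        ring
      rw [e]
      have e2 : 4 * Cm m * J * (2 ^ J * Real.exp (-ht)) =
          Real.exp (Real.log (4 * Cm m) + Real.log J + (J * Real.log 2 - ht)) := by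
        rw [Real.exp_add, Real.exp_add, Real.exp_log (by positivity), Real.exp_log hJ0,
          sub_eq_add_neg, Real.exp_add, ← Real.log_pow, Real.exp_log (by positivity)]
      rw [e2]
      apply Real.exp_le_exp.mpr
      linarith [log4Cm_le m])
  have hp2 := fam2.law.nonneg
  have hg := hgood Ω2 ζ2 (rs p2 E) u2 d2 t2 Z2 hfull w hwJ
  have hEpos : 0 < Pr p2 E := by
    have h3 : 3 / (J : ℝ) ≤ 3 / 16 := by
      apply div_le_div_of_nonneg_left (by norm_num) (by norm_num) hJr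
    linarith
  obtain ⟨hrs, -, -, hrCH⟩ := rst Ω2 ((Fin m → ℤ) × ℕ) ζ2 p2 fam2.law E hEpos
  obtain ⟨v1, -, v3⟩ := val m J Ω2 p2 u2 d2 t2 fam2
  have hsplit := one_split (q := rs p2 E) hrs.nonneg u2 d2 t2 Z2 w (v3 w J hwJ)
  -- the entropy at the final resolution
  have hcJ := (hrCH (fun ω => (X J u2 d2 t2 J ω, t2 ω)) Z2).1
  obtain ⟨FJ, hFJ, cFJ⟩ := v1 J
  have hdJ : CH p2 (fun ω => (X J u2 d2 t2 J ω, t2 ω)) Z2 ≤
      ((m * (J + 1) + J : ℕ) : ℝ) * Real.log 2 := by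
    have h := CH_le_card hp2 fam2.law.sum_one (fun ω => (X J u2 d2 t2 J ω, t2 ω)) Z2
      (fun _ => FJ) (fun ω _ => hFJ ω)
    rw [Ex_const fam2.law.sum_one, cFJ] at h
    push_cast at h
    rw [Real.log_pow] at h
    exact h
  have h1 := one_div_pr (m := m) hJ16 (CH_nonneg hrs.nonneg _ _) hE hcJ hdJ
  -- the entropy at the coarse resolution
  obtain ⟨Fw, hFw, cFw⟩ := v1 w
  have hcw := (hrCH (fun ω => (X J u2 d2 t2 w ω, t2 ω)) Z2).2 Fw hFw
  have h2 : CH p2 (fun ω => (X J u2 d2 t2 w ω, t2 ω)) Z2 ≤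
      CH (rs p2 E) (fun ω => (X J u2 d2 t2 w ω, t2 ω)) Z2 + Real.log 2 +
        3 * (2 * m + 1) * Real.log 2 := by
    refine hcw.trans ?_
    have hc : Real.log (Fw.card : ℝ) ≤ (2 * m + 1) * J * Real.log 2 := by
      rw [cFw]
      push_cast
      rw [Real.log_pow]
      apply mul_le_mul_of_nonneg_right _ hl2
      push_cast
      have hw1 : (w : ℝ) ≤ J := by exact_mod_cast hwJ
      have : (m : ℝ) * (w + 1) ≤ m * (2 * J) :=
        mul_le_mul_of_nonneg_left (by linarith) (Nat.cast_nonneg m)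
      linarith
    have hc0 : 0 ≤ Real.log (Fw.card : ℝ) := by
      rw [cFw]
      apply Real.log_nonneg
      push_cast
      exact one_le_pow₀ (by norm_num)
    have hPr : 1 - Pr p2 E ≤ 3 / J := by linarith
    have h3 : (1 - Pr p2 E) * Real.log (Fw.card : ℝ) ≤ 3 * (2 * m + 1) * Real.log 2 := by
      calc (1 - Pr p2 E) * Real.log (Fw.card : ℝ) ≤ 3 / J * Real.log (Fw.card : ℝ) :=
            mul_le_mul_of_nonneg_right hPr hc0
        _ ≤ 3 / J * ((2 * m + 1) * J * Real.log 2) :=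
            mul_le_mul_of_nonneg_left hc (by positivity)
        _ = 3 * (2 * m + 1) * Real.log 2 := by
            field_simp
    linarith
  -- Jensen
  obtain ⟨j0, j1⟩ := jen Ω2 ((Fin m → ℤ) × ℕ) ζ2 p2 (fun ω => (X J u2 d2 t2 w ω, t2 ω)) Z2 fam2.law
  have h6 : min (hw + (m * J * Real.log 2 - hD)) (ht + m * w * Real.log 2) -
      Real.log (4 * Cm m) ≤ CH p2 (fun ω => (X J u2 d2 t2 w ω, t2 ω)) Z2 := by
    refine le_trans ?_ j1
    have h7 := Real.log_le_log j0 hm2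
    rw [Real.log_mul (by positivity) (Real.exp_pos _).ne', Real.log_exp] at h7
    linarith
  have h5 : Real.log N ≤ m * J * Real.log 2 - hD + Real.log 2 := by
    have hN0 : (0 : ℝ) < N := by linarith
    calc Real.log N ≤ Real.log (2 * L) := Real.log_le_log hN0 hNle
      _ = m * J * Real.log 2 - hD + Real.log 2 := by
          rw [Real.log_mul (by norm_num) (by positivity), hL, Real.log_exp]
          ring
  refine one_final (cJ := CH (rs p2 E) (fun ω => (X J u2 d2 t2 J ω, t2 ω)) Z2)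
    (cw := CH (rs p2 E) (fun ω => (X J u2 d2 t2 w ω, t2 ω)) Z2) ?_ h1 h2 ch2 (L := Real.log N)
    (hJ := hJ) ?_ h5 h6
  · rw [hsplit]
    linarith
  · linarith

theorem one_thm (cov : COVStmt) (sec : SECStmt) (fin : FINStmt) (rst : RSTStmt) (jen : JENStmt)
    (val : VALStmt) (sub : SUBStmt) : ONEStmt := by
  intro m
  refine ⟨oneC m, oneC_nonneg m, ?_⟩
  intro μ σ θ J hJ16 hgood Ω ζ _ p u d t Z hfam w hwJ hD hw ht hJ hsD hsw hst hCH hDm hθ
  obtain ⟨Ω', i', p', f, hp', hpos', hmarg⟩ := sub Ω p hfam.law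
  refine one_core cov sec fin rst jen val m μ σ θ J hJ16 hgood Ω' ζ p' (fun w => u (f w))
    (fun w => d (f w)) (fun w => t (f w)) (fun w => Z (f w)) ?_ hpos' w hwJ hD hw ht hJ ?_ ?_ ?_
    ?_ hDm hθ
  · exact ⟨hp', fun ω i => hfam.u_nonneg _ i, fun ω i => hfam.u_lt _ i,
      fun ω i => hfam.d_nonneg _ i, fun ω i => hfam.d_lt _ i, fun ω => hfam.t_lt _⟩
  · intro ω
    have h := hsD (f ω)
    have e1 := hmarg.law (fun v => (Fl d J v, Z v)) (Fl d J (f ω), Z (f ω))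
    have e2 := hmarg.law Z (Z (f ω))
    rw [← e1, ← e2] at h
    exact h
  · intro ω
    have h := hsw (f ω)
    have e1 := hmarg.law (fun v => ((X J u d t w v, t v), Z v))
      ((X J u d t w (f ω), t (f ω)), Z (f ω))
    have e2 := hmarg.law Z (Z (f ω))
    rw [← e1, ← e2] at h
    exact h
  · intro ω
    have h := hst (f ω)
    have e1 := hmarg.law (fun v => (t v, (li u d v, Z v))) (t (f ω), (li u d (f ω), Z (f ω)))
    have e2 := hmarg.law (fun v => (li u d v, Z v)) (li u d (f ω), Z (f ω))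
    rw [← e1, ← e2] at h
    exact h
  · have h := hmarg.CH (fun ω => (X J u d t J ω, t ω)) Z
    refine le_trans (le_of_eq ?_) hCH
    exact h

end Pool.KAF
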